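import Pool.Agent.Q46.FlB

/-!
# MP_d94893_lc, Q1: cyclic monotone trajectories are not optimal on the line (m = 2)

Faulty search on the line (`m = 2` rays) with detection probability `p` at every pass and certain
detection at a point where the searcher reverses direction.
-/

open MeasureTheory
open scoped ENNReal
open Pool.Agent.Helper569.Faulty (turnTime IsTrajectory coin detectionTime)

namespace Pool.Agent.Results.MP_d94893_lc.LineNotCyclicMonotone

/-- The first time at which the searcher reverses direction exactly at `h` (infinite if never);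
the turning points of the trajectory are `y 1, y 2, ...` -/
noncomputable def turnHit (y : ℕ → ℝ) (h : ℝ) : ℝ≥0∞ :=
  ⨅ (n : ℕ) (_ : y (n + 1) = h), ENNReal.ofReal (turnTime y (n + 1))

/-- First detection time of a treasure at `h`: the first pass `k` with `ω k = true`, or the first
reversal exactly at `h` if this comes earlier (certain detection at reversal points). -/
noncomputable def detectionTimeC (y : ℕ → ℝ) (h : ℝ) (ω : ℕ → Bool) : ℝ≥0∞ :=
  min (detectionTime y h ω) (turnHit y h)

/-- Expected detection time, the outcomes of the passes being independent with success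
probability `p`. -/
noncomputable def expectedTimeC (p : ℝ) (y : ℕ → ℝ) (h : ℝ) : ℝ≥0∞ :=
  ∫⁻ ω, detectionTimeC y h ω ∂(Measure.infinitePi fun _ : ℕ => coin p)

/-- The competitive ratio `C_p`: supremum over treasures at `h`, `|h| ≥ 1`. -/
noncomputable def competitiveRatioC (p : ℝ) (y : ℕ → ℝ) : ℝ≥0∞ :=
  ⨆ (h : ℝ) (_ : 1 ≤ |h|), ENNReal.ofReal p * expectedTimeC p y h / ENNReal.ofReal |h|

/-- Cyclic monotone trajectories on the line: the `(n+1)`-st excursion goes along the positive ray
for even `n` and along the negative ray for odd `n`, up to distance `x n`; on each ray the turning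
distances increase strictly and tend to infinity. -/
def IsCyclicMonotoneC (y : ℕ → ℝ) : Prop :=
  y 0 = 0 ∧ ∃ x : ℕ → ℝ, (∀ n, 0 < x n) ∧ (∀ n, x n < x (n + 2)) ∧
    Filter.Tendsto x Filter.atTop Filter.atTop ∧ ∀ n, y (n + 1) = (-1) ^ n * x n

/-- For every `p` strictly between `0` and `1` there is a trajectory on the line whose competitive
ratio is strictly smaller than the infimum over the cyclic monotone trajectories; the gap between
the two infima is at least `p ^ 4 (1 - p) ^ 3 / 20`, and the infimum over the cyclic monotone
trajectories is at most `8 + p`. -/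
theorem result (p : ℝ) (hp0 : 0 < p) (hp1 : p < 1) :
    (⨅ (y : ℕ → ℝ) (_ : IsTrajectory y), competitiveRatioC p y) +
        ENNReal.ofReal (p ^ 4 * (1 - p) ^ 3 / 20) ≤
      (⨅ (y : ℕ → ℝ) (_ : IsCyclicMonotoneC y), competitiveRatioC p y) ∧
    (⨅ (y : ℕ → ℝ) (_ : IsCyclicMonotoneC y), competitiveRatioC p y) ≤
      ENNReal.ofReal (8 + p) ∧
    ∃ y : ℕ → ℝ, IsTrajectory y ∧ competitiveRatioC p y <
      ⨅ (y : ℕ → ℝ) (_ : IsCyclicMonotoneC y), competitiveRatioC p y :=
  Q46.Fl.main hp0 hp1

end Pool.Agent.Results.MP_d94893_lc.LineNotCyclicMonotone
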